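import Pool.Agent.X297.LO.Stm

/-! Part LO_CRT of the disproof of MP_218893_pr. -/

set_option autoImplicit false

namespace Pool.Agent.X118.LO

open Pool.Agent.X297.LO

/-- the triples of indices of the product example -/
def triples (m₁ m₂ : ℕ) : (Fin (m₁ * m₂) × Fin (m₁ * m₂) × Fin (m₁ * m₂)) ≃
    ((Fin m₁ × Fin m₁ × Fin m₁) × (Fin m₂ × Fin m₂ × Fin m₂)) where
  toFun p := (((finProdFinEquiv.symm p.1).1, (finProdFinEquiv.symm p.2.1).1,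
    (finProdFinEquiv.symm p.2.2).1), ((finProdFinEquiv.symm p.1).2,
    (finProdFinEquiv.symm p.2.1).2, (finProdFinEquiv.symm p.2.2).2))
  invFun q := (finProdFinEquiv (q.1.1, q.2.1), finProdFinEquiv (q.1.2.1, q.2.2.1),
    finProdFinEquiv (q.1.2.2, q.2.2.2))
  left_inv p := by
    simp only [Prod.mk.eta, Equiv.apply_symm_apply]
  right_inv q := by
    simp only [Equiv.symm_apply_apply, Prod.mk.eta]

theorem count {N₁ N₂ m₁ m₂ : ℕ} {a b : ℤ} (hab : a * N₁ + b * N₂ = 1)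
    (s₁ : Fin m₁ → ℤ) (s₂ : Fin m₂ → ℤ) (s : Fin (m₁ * m₂) → ℤ)
    (hs : ∀ i, s i = s₁ (finProdFinEquiv.symm i).1 * (b * N₂) +
      s₂ (finProdFinEquiv.symm i).2 * (a * N₁))
    (c k k₁ k₂ : ℤ) (hk₁ : (N₁ : ℤ) ∣ k - k₁) (hk₂ : (N₂ : ℤ) ∣ k - k₂) :
    Nat.card {p : Fin (m₁ * m₂) × Fin (m₁ * m₂) × Fin (m₁ * m₂) //
        ((N₁ * N₂ : ℕ) : ℤ) ∣ s p.1 - s p.2.1 + c * s p.2.2 - k} =
      Nat.card {p : Fin m₁ × Fin m₁ × Fin m₁ //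
        (N₁ : ℤ) ∣ s₁ p.1 - s₁ p.2.1 + c * s₁ p.2.2 - k₁} *
      Nat.card {p : Fin m₂ × Fin m₂ × Fin m₂ //
        (N₂ : ℤ) ∣ s₂ p.1 - s₂ p.2.1 + c * s₂ p.2.2 - k₂} := by
  have hco : IsCoprime (N₁ : ℤ) (N₂ : ℤ) := ⟨a, b, hab⟩
  have e1 : ∀ i, s i - s₁ (finProdFinEquiv.symm i).1 =
      N₁ * (a * (s₂ (finProdFinEquiv.symm i).2 - s₁ (finProdFinEquiv.symm i).1)) := by
    intro i
    rw [hs]
    linear_combination (s₁ (finProdFinEquiv.symm i).1) * hab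
  have e2 : ∀ i, s i - s₂ (finProdFinEquiv.symm i).2 =
      N₂ * (b * (s₁ (finProdFinEquiv.symm i).1 - s₂ (finProdFinEquiv.symm i).2)) := by
    intro i
    rw [hs]
    linear_combination (s₂ (finProdFinEquiv.symm i).2) * hab
  rw [← Nat.card_prod]
  refine (Nat.card_congr ((triples m₁ m₂).subtypeEquiv (q := fun q =>
    (N₁ : ℤ) ∣ s₁ q.1.1 - s₁ q.1.2.1 + c * s₁ q.1.2.2 - k₁ ∧
    (N₂ : ℤ) ∣ s₂ q.2.1 - s₂ q.2.2.1 + c * s₂ q.2.2.2 - k₂) ?_)).trans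
    (Nat.card_congr (Equiv.subtypeProdEquivProd
      (p := fun q : Fin m₁ × Fin m₁ × Fin m₁ => (N₁ : ℤ) ∣ s₁ q.1 - s₁ q.2.1 + c * s₁ q.2.2 - k₁)
      (q := fun q : Fin m₂ × Fin m₂ × Fin m₂ =>
        (N₂ : ℤ) ∣ s₂ q.1 - s₂ q.2.1 + c * s₂ q.2.2 - k₂)))
  rintro ⟨p₁, p₂, p₃⟩
  have h1 : (N₁ : ℤ) ∣ (s p₁ - s p₂ + c * s p₃ - k) -
      (s₁ (finProdFinEquiv.symm p₁).1 - s₁ (finProdFinEquiv.symm p₂).1 +
        c * s₁ (finProdFinEquiv.symm p₃).1 - k₁) := by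
    have : (s p₁ - s p₂ + c * s p₃ - k) -
      (s₁ (finProdFinEquiv.symm p₁).1 - s₁ (finProdFinEquiv.symm p₂).1 +
        c * s₁ (finProdFinEquiv.symm p₃).1 - k₁) =
        (s p₁ - s₁ (finProdFinEquiv.symm p₁).1) - (s p₂ - s₁ (finProdFinEquiv.symm p₂).1) +
        c * (s p₃ - s₁ (finProdFinEquiv.symm p₃).1) - (k - k₁) := by ring
    rw [this, e1, e1, e1]
    exact dvd_sub (dvd_add (dvd_sub (dvd_mul_right _ _) (dvd_mul_right _ _))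
      ((dvd_mul_right _ _).mul_left _)) hk₁
  have h2 : (N₂ : ℤ) ∣ (s p₁ - s p₂ + c * s p₃ - k) -
      (s₂ (finProdFinEquiv.symm p₁).2 - s₂ (finProdFinEquiv.symm p₂).2 +
        c * s₂ (finProdFinEquiv.symm p₃).2 - k₂) := by
    have : (s p₁ - s p₂ + c * s p₃ - k) -
      (s₂ (finProdFinEquiv.symm p₁).2 - s₂ (finProdFinEquiv.symm p₂).2 +
        c * s₂ (finProdFinEquiv.symm p₃).2 - k₂) =
        (s p₁ - s₂ (finProdFinEquiv.symm p₁).2) - (s p₂ - s₂ (finProdFinEquiv.symm p₂).2) +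
        c * (s p₃ - s₂ (finProdFinEquiv.symm p₃).2) - (k - k₂) := by ring
    rw [this, e2, e2, e2]
    exact dvd_sub (dvd_add (dvd_sub (dvd_mul_right _ _) (dvd_mul_right _ _))
      ((dvd_mul_right _ _).mul_left _)) hk₂
  refine Iff.trans ?_ (and_congr (dvd_iff_dvd_of_dvd_sub h1) (dvd_iff_dvd_of_dvd_sub h2))
  change ((N₁ * N₂ : ℕ) : ℤ) ∣ s p₁ - s p₂ + c * s p₃ - k ↔ _ ∧ _
  push_cast
  exact ⟨fun h => ⟨(dvd_mul_right _ _).trans h, (dvd_mul_left _ _).trans h⟩,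
    fun h => hco.mul_dvd h.1 h.2⟩

theorem t_CRT : S_CRT := by
  intro N₁ N₂ A₁ M₁ A₂ M₂ hco h₁ h₂
  obtain ⟨m₁, s₁, hM₁, x₁, hA₁⟩ := h₁
  obtain ⟨m₂, s₂, hM₂, x₂, hA₂⟩ := h₂
  obtain ⟨a, b, hab⟩ := Nat.isCoprime_iff_coprime.2 hco
  refine ⟨m₁ * m₂, fun i => s₁ (finProdFinEquiv.symm i).1 * (b * N₂) +
      s₂ (finProdFinEquiv.symm i).2 * (a * N₁), fun k => ?_,
      x₁ * (b * N₂) + x₂ * (a * N₁), ?_⟩
  · have := count hab s₁ s₂ _ (fun _ => rfl) 1 k k k (by simp) (by simp)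
    simp only [one_mul] at this
    rw [this]
    exact Nat.mul_le_mul (hM₁ k) (hM₂ k)
  · rw [count hab s₁ s₂ _ (fun _ => rfl) 2 (x₁ * (b * N₂) + x₂ * (a * N₁)) x₁ x₂
      ⟨a * (x₂ - x₁), by linear_combination x₁ * hab⟩
      ⟨b * (x₁ - x₂), by linear_combination x₂ * hab⟩]
    exact Nat.mul_le_mul hA₁ hA₂

end Pool.Agent.X118.LO
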